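import Pool.Agent.H870R4.Noz.Stmts

set_option autoImplicit false

open MeasureTheory Set
open scoped ContDiff

namespace H870N

theorem adm_box_compact (l r s : ℝ) : IsCompact {u : E2 | l ≤ u 0 ∧ u 0 ≤ r ∧ |u 1| ≤ s} := by
  have h : {u : E2 | l ≤ u 0 ∧ u 0 ≤ r ∧ |u 1| ≤ s} =
      (EuclideanSpace.equiv (Fin 2) ℝ).toHomeomorph ⁻¹'
        (univ.pi (fun i : Fin 2 => if i = 0 then Icc l r else Icc (-s) s)) := by
    ext u
    simp only [mem_ofPred_eq, mem_preimage, mem_univ_pi, Fin.forall_fin_two]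
    simp [abs_le, and_assoc]
  rw [h, Homeomorph.isCompact_preimage]
  refine isCompact_univ_pi fun i => ?_
  split_ifs
  · exact isCompact_Icc
  · exact isCompact_Icc

theorem adm_cont (i : Fin 2) : Continuous (fun u : E2 => u i) := by fun_prop

theorem adm_rect_open (L R h : ℝ) : IsOpen (rect L R h) := by
  have h0 := adm_cont 0
  have h1 := adm_cont 1
  exact (isOpen_lt continuous_const h0).inter ((isOpen_lt h0 continuous_const).inter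
    (isOpen_lt h1.abs continuous_const))

variable {Y Xi : E2 → E2} {V r : E2 → ℝ} {L R h0 L1 R1 h cL cR a b c d lm lp T ϑ : ℝ}

theorem adm_sub (P : Par V r L R h0 L1 R1 h cL cR a b c d lm lp T ϑ) :
    rect L1 R1 h ⊆ rect L R h0 := by
  rintro u ⟨h1, h2, h3⟩
  exact ⟨P.o1.trans h1, h2.trans P.o11, h3.trans P.hh0⟩

theorem adm_box_sub (P : Par V r L R h0 L1 R1 h cL cR a b c d lm lp T ϑ) :
    {u : E2 | L1 ≤ u 0 ∧ u 0 ≤ R1 ∧ |u 1| ≤ h} ⊆ rect L R h0 := by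
  rintro u ⟨h1, h2, h3⟩
  exact ⟨lt_of_lt_of_le P.o1 h1, lt_of_le_of_lt h2 P.o11, lt_of_le_of_lt h3 P.hh0⟩

theorem adm_rect_box : rect L1 R1 h ⊆ {u : E2 | L1 ≤ u 0 ∧ u 0 ≤ R1 ∧ |u 1| ≤ h} := by
  rintro u ⟨h1, h2, h3⟩
  exact ⟨h1.le, h2.le, h3.le⟩

theorem adm_open (G : Geo Y Xi V r L R h0) (P : Par V r L R h0 L1 R1 h cL cR a b c d lm lp T ϑ) :
    IsOpen (Y '' rect L1 R1 h) := by
  have h1 : Y '' rect L1 R1 h = Y '' rect L R h0 ∩ Xi ⁻¹' (rect L1 R1 h) := by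
    ext x
    constructor
    · rintro ⟨u, hu, rfl⟩
      exact ⟨⟨u, adm_sub P hu, rfl⟩, by
        show Xi (Y u) ∈ rect L1 R1 h
        rw [G.left u (adm_sub P hu)]; exact hu⟩
    · rintro ⟨⟨u, hu, rfl⟩, h2⟩
      have h3 : Xi (Y u) ∈ rect L1 R1 h := h2
      rw [G.left u hu] at h3
      exact ⟨u, h3, rfl⟩
  rw [h1]
  exact G.hXi.continuousOn.isOpen_inter_preimage G.hopen (adm_rect_open _ _ _)

theorem adm_closure (G : Geo Y Xi V r L R h0)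
    (P : Par V r L R h0 L1 R1 h cL cR a b c d lm lp T ϑ) :
    IsCompact (Y '' {u : E2 | L1 ≤ u 0 ∧ u 0 ≤ R1 ∧ |u 1| ≤ h}) ∧
    closure (Y '' rect L1 R1 h) ⊆ Y '' {u : E2 | L1 ≤ u 0 ∧ u 0 ≤ R1 ∧ |u 1| ≤ h} := by
  have h1 : IsCompact (Y '' {u : E2 | L1 ≤ u 0 ∧ u 0 ≤ R1 ∧ |u 1| ≤ h}) :=
    (adm_box_compact L1 R1 h).image_of_continuousOn (G.hY.continuousOn.mono (adm_box_sub P))
  exact ⟨h1, closure_minimal (image_mono adm_rect_box) h1.isClosed⟩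

/-- derivative of a `C^1` function on the closure is bounded -/
theorem adm_fderiv_bdd {Ω : Set E2} (hΩ : IsOpen Ω) (hc : IsCompact (closure Ω)) {ψ : E2 → ℝ}
    (hψ : ContDiffOn ℝ 1 ψ (closure Ω)) :
    ∃ C, 0 ≤ C ∧ ∀ x ∈ Ω, |ψ x| ≤ C ∧ ‖fderiv ℝ ψ x‖ ≤ C := by
  obtain ⟨C1, hC1⟩ := hc.exists_bound_of_continuousOn hψ.continuousOn
  have hloc : ∀ x ∈ closure Ω, ∃ N ∈ nhdsWithin x (closure Ω), ∃ C, ∀ y ∈ N ∩ Ω, ‖fderiv ℝ ψ y‖ ≤ C := by
    intro x hx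
    have h1 := hψ x hx
    have h2 : ContDiffWithinAt ℝ (0 + 1) ψ (closure Ω) x := by simpa using h1
    rw [contDiffWithinAt_succ_iff_hasFDerivWithinAt (by simp)] at h2
    obtain ⟨u, hu, -, f', hf', hcf⟩ := h2
    rw [insert_eq_of_mem hx] at hu
    have hcu : ContinuousWithinAt f' u x := hcf.continuousWithinAt
    have h3 : ∀ᶠ y in nhdsWithin x u, ‖f' y‖ < ‖f' x‖ + 1 :=
      hcu.norm.eventually_lt_const (by linarith)
    -- neighbourhoods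
    rw [mem_nhdsWithin] at hu
    obtain ⟨O1, hO1, hxO1, hsub⟩ := hu
    rw [eventually_nhdsWithin_iff, eventually_nhds_iff] at h3
    obtain ⟨O2, hO2, hO2o, hxO2⟩ := h3
    refine ⟨O1 ∩ O2 ∩ closure Ω, ?_, ‖f' x‖ + 1, ?_⟩
    · rw [inter_comm]
      exact Filter.inter_mem self_mem_nhdsWithin
        (mem_nhdsWithin_of_mem_nhds ((hO1.inter hO2o).mem_nhds ⟨hxO1, hxO2⟩))
    · rintro y ⟨⟨⟨hy1, hy2⟩, -⟩, hyΩ⟩
      have hyu : y ∈ u := hsub ⟨hy1, subset_closure hyΩ⟩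
      have hnh : u ∈ nhds y := by
        refine Filter.mem_of_superset ((hO1.inter hΩ).mem_nhds ⟨hy1, hyΩ⟩) ?_
        rintro z ⟨hz1, hz2⟩
        exact hsub ⟨hz1, subset_closure hz2⟩
      have h4 : HasFDerivAt ψ (f' y) y := (hf' y hyu).hasFDerivAt hnh
      rw [h4.fderiv]
      exact (hO2 y hy2 hyu).le
  choose! N hN C hC using hloc
  obtain ⟨t, ht, hcov⟩ := hc.elim_nhdsWithin_subcover N hN
  refine ⟨|C1| + ∑ x ∈ t, |C x|, by positivity, fun y hy => ⟨?_, ?_⟩⟩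
  · have h1 := hC1 y (subset_closure hy)
    rw [Real.norm_eq_abs] at h1
    have h2 : 0 ≤ ∑ x ∈ t, |C x| := Finset.sum_nonneg fun _ _ => abs_nonneg _
    linarith [le_abs_self C1]
  · have h1 := hcov (subset_closure hy)
    simp only [mem_iUnion] at h1
    obtain ⟨x, hxt, hyN⟩ := h1
    have h2 := hC x (ht x hxt) y ⟨hyN, hy⟩
    have h3 : |C x| ≤ ∑ x ∈ t, |C x| :=
      Finset.single_le_sum (f := fun x => |C x|) (fun _ _ => abs_nonneg _) hxt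
    linarith [le_abs_self (C x), abs_nonneg C1]

end H870N
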