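import Pool.Agent.H775R3.Noz.A1

set_option autoImplicit false

open MeasureTheory Set
open scoped ContDiff

namespace H870N

variable {Y Xi : E2 → E2} {V r : E2 → ℝ} {L R h0 L1 R1 h cL cR a b c d lm lp T ϑ : ℝ}

theorem adm_meas_aux (G : Geo Y Xi V r L R h0) :
    ∃ (X' : E2 → E2) (V' r' : E2 → ℝ), Measurable X' ∧ Measurable V' ∧ Measurable r' ∧
      (∀ x ∈ Y '' rect L R h0, X' x = Xi x) ∧ (∀ u ∈ rect L R h0, V' u = V u ∧ r' u = r u) := by
  classical
  refine ⟨(Y '' rect L R h0).piecewise Xi (fun _ => 0), (rect L R h0).piecewise V (fun _ => 0),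
    (rect L R h0).piecewise r (fun _ => 0),
    G.hXi.continuousOn.measurable_piecewise continuousOn_const G.hopen.measurableSet,
    G.hV.measurable_piecewise continuousOn_const (adm_rect_open _ _ _).measurableSet,
    G.hr.measurable_piecewise continuousOn_const (adm_rect_open _ _ _).measurableSet, ?_, ?_⟩
  · intro x hx
    rw [piecewise_eq_of_mem _ _ _ hx]
  · intro u hu
    rw [piecewise_eq_of_mem _ _ _ hu, piecewise_eq_of_mem _ _ _ hu]
    exact ⟨rfl, rfl⟩

theorem adm_et_meas (hgp : Continuous (gp a b c d)) :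
    Continuous (fun z : ℝ × ℝ => et a b c d T z.1 z.2) := by
  unfold et
  fun_prop

theorem adm_Th_meas (hgg : Continuous (gg a b c d)) :
    Continuous (fun z : ℝ × ℝ => Th a b c d T z.1 z.2) := by
  unfold Th
  fun_prop

theorem adm_meas_rho (G : Geo Y Xi V r L R h0) (hgp : Continuous (gp a b c d)) (ε : ℝ) :
    ∃ f : ℝ × E2 → ℝ, Measurable f ∧ ∀ t, ∀ x ∈ Y '' rect L R h0,
      f (t, x) = rho Xi V r a b c d T lm lp ε t x := by
  classical
  obtain ⟨X', V', r', hX, hV, hr, h1, h2⟩ := adm_meas_aux G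
  have hX2 : Measurable (fun z : ℝ × E2 => X' z.2) := hX.comp measurable_snd
  have hX0 : Measurable (fun z : ℝ × E2 => (X' z.2) 0) := (adm_cont 0).measurable.comp hX2
  have het : Measurable (fun z : ℝ × E2 => et a b c d T z.1 ((X' z.2) 0)) :=
    (adm_et_meas (T := T) hgp).measurable.comp (measurable_fst.prodMk hX0)
  refine ⟨fun z => if lm + z.1 < (X' z.2) 0 ∧ (X' z.2) 0 < lp + z.1 then
    r' (X' z.2) * (1 + ε * et a b c d T z.1 ((X' z.2) 0) * V' (X' z.2) ^ 2) else 0, ?_, ?_⟩
  · refine Measurable.ite ?_ ?_ measurable_const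
    · exact (measurableSet_lt (measurable_const.add measurable_fst) hX0).inter
        (measurableSet_lt hX0 (measurable_const.add measurable_fst))
    · exact (hr.comp hX2).mul (measurable_const.add ((het.const_mul ε).mul ((hV.comp hX2).pow_const 2)))
  · rintro t x ⟨u, hu, rfl⟩
    have e1 : X' (Y u) = u := by rw [h1 _ ⟨u, hu, rfl⟩, G.left u hu]
    unfold rho
    simp only
    rw [e1, G.left u hu, (h2 u hu).1, (h2 u hu).2]

theorem adm_meas_vel (G : Geo Y Xi V r L R h0) (hgp : Continuous (gp a b c d))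
    (hgg : Continuous (gg a b c d)) (ε : ℝ) :
    ∃ f : ℝ × E2 → E2, Measurable f ∧ ∀ t, ∀ x ∈ Y '' rect L R h0,
      f (t, x) = vel Y Xi V a b c d T ε t x := by
  classical
  obtain ⟨X', V', r', hX, hV, hr, h1, h2⟩ := adm_meas_aux G
  have hX2 : Measurable (fun z : ℝ × E2 => X' z.2) := hX.comp measurable_snd
  have hX0 : Measurable (fun z : ℝ × E2 => (X' z.2) 0) := (adm_cont 0).measurable.comp hX2
  have het : Measurable (fun z : ℝ × E2 => et a b c d T z.1 ((X' z.2) 0)) :=
    (adm_et_meas (T := T) hgp).measurable.comp (measurable_fst.prodMk hX0)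
  have hTh : Measurable (fun z : ℝ × E2 => Th a b c d T z.1 ((X' z.2) 0)) :=
    (adm_Th_meas (T := T) hgg).measurable.comp (measurable_fst.prodMk hX0)
  have hD : Measurable (fun u : E2 => fderiv ℝ Y u e0) := measurable_fderiv_apply_const ℝ Y e0
  refine ⟨fun z => ((1 + ε * Th a b c d T z.1 ((X' z.2) 0)) /
      (1 + ε * et a b c d T z.1 ((X' z.2) 0) * V' (X' z.2) ^ 2)) •
        ((V' (X' z.2)) ^ 2 • fderiv ℝ Y (X' z.2) e0), ?_, ?_⟩
  · have ha : Measurable (fun z : ℝ × E2 => (1 + ε * Th a b c d T z.1 ((X' z.2) 0)) /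
      (1 + ε * et a b c d T z.1 ((X' z.2) 0) * V' (X' z.2) ^ 2)) :=
      (measurable_const.add (hTh.const_mul ε)).div
        (measurable_const.add ((het.const_mul ε).mul ((hV.comp hX2).pow_const 2)))
    have hb : Measurable (fun z : ℝ × E2 => (V' (X' z.2)) ^ 2 • fderiv ℝ Y (X' z.2) e0) :=
      ((hV.comp hX2).pow_const 2).smul (hD.comp hX2)
    exact ha.smul hb
  · rintro t x ⟨u, hu, rfl⟩
    have e1 : X' (Y u) = u := by rw [h1 _ ⟨u, hu, rfl⟩, G.left u hu]
    unfold vel vel0
    simp only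
    rw [e1, G.left u hu, (h2 u hu).1]

end H870N
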