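import Pool.Agent.H775R3.Noz.A2

set_option autoImplicit false

open MeasureTheory Set
open scoped ContDiff

namespace H870N

variable {Y Xi : E2 → E2} {V r : E2 → ℝ} {L R h0 L1 R1 h cL cR a b c d lm lp T ϑ : ℝ}

theorem adm_rho_Y (G : Geo Y Xi V r L R h0) (ε t : ℝ) {u : E2} (hu : u ∈ rect L R h0) :
    rho Xi V r a b c d T lm lp ε t (Y u) =
      open scoped Classical in if lm + t < u 0 ∧ u 0 < lp + t then
        r u * (1 + ε * et a b c d T t (u 0) * V u ^ 2) else 0 := by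
  unfold rho
  rw [G.left u hu]

theorem adm_vel_Y (G : Geo Y Xi V r L R h0) (ε t : ℝ) {u : E2} (hu : u ∈ rect L R h0) :
    vel Y Xi V a b c d T ε t (Y u) =
      ((1 + ε * Th a b c d T t (u 0)) / (1 + ε * et a b c d T t (u 0) * V u ^ 2)) •
        ((V u) ^ 2 • fderiv ℝ Y u e0) := by
  unfold vel vel0
  rw [G.left u hu]

theorem adm_strip (P : Par V r L R h0 L1 R1 h cL cR a b c d lm lp T ϑ) {t : ℝ} (ht : t ∈ Icc 0 T) :
    rect L1 R1 h ∩ {u : E2 | lm + t < u 0 ∧ u 0 < lp + t} = rect (lm + t) (lp + t) h := by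
  ext u
  have h1 := P.o2
  have h2 := P.o10
  obtain ⟨h3, h4⟩ := ht
  constructor
  · rintro ⟨⟨_, _, e3⟩, e4, e5⟩
    exact ⟨e4, e5, e3⟩
  · rintro ⟨e4, e5, e3⟩
    exact ⟨⟨by linarith, by linarith, e3⟩, e4, e5⟩

theorem adm_strip_meas (t : ℝ) : MeasurableSet {u : E2 | lm + t < u 0 ∧ u 0 < lp + t} :=
  ((isOpen_lt continuous_const (adm_cont 0)).inter
    (isOpen_lt (adm_cont 0) continuous_const)).measurableSet

theorem adm_int (CV : TaskCV) (G : Geo Y Xi V r L R h0)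
    (P : Par V r L R h0 L1 R1 h cL cR a b c d lm lp T ϑ) (ε t : ℝ) (ht : t ∈ Icc 0 T)
    (w : E2 → ℝ) :
    ∫ x in Y '' rect L1 R1 h, w x * rho Xi V r a b c d T lm lp ε t x =
      ∫ u in rect (lm + t) (lp + t) h, w (Y u) * (1 / V u ^ 2 + ε * et a b c d T t (u 0)) := by
  classical
  rw [(CV Y Xi V r L R h0 G (rect L1 R1 h) (adm_sub P) (adm_rect_open _ _ _).measurableSet _).2,
    ← adm_strip P ht, ← setIntegral_indicator (adm_strip_meas t)]
  refine setIntegral_congr_fun (adm_rect_open _ _ _).measurableSet fun u hu => ?_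
  have hu' := adm_sub P hu
  have hV := (G.Vpos u hu').1
  have hr := (G.rpos u hu').1
  simp only
  rw [adm_rho_Y G ε t hu']
  by_cases hs : lm + t < u 0 ∧ u 0 < lp + t
  · rw [if_pos hs, indicator_of_mem (by exact hs)]
    field_simp
  · rw [if_neg hs, indicator_of_notMem (by exact hs)]
    simp

theorem adm_flux (CV : TaskCV) (G : Geo Y Xi V r L R h0)
    (P : Par V r L R h0 L1 R1 h cL cR a b c d lm lp T ϑ) (ε t : ℝ) (ht : t ∈ Icc 0 T)
    (hpos : ∀ u ∈ rect L1 R1 h, 0 < 1 + ε * et a b c d T t (u 0) * V u ^ 2) (ψ : E2 → ℝ)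
    (hψ : ∀ x ∈ Y '' rect L1 R1 h, DifferentiableAt ℝ ψ x) :
    ∫ x in Y '' rect L1 R1 h, inner ℝ (gradient ψ x) (vel Y Xi V a b c d T ε t x) *
        rho Xi V r a b c d T lm lp ε t x =
      ∫ u in rect (lm + t) (lp + t) h,
        fderiv ℝ (fun u => ψ (Y u)) u e0 * (1 + ε * Th a b c d T t (u 0)) := by
  classical
  rw [(CV Y Xi V r L R h0 G (rect L1 R1 h) (adm_sub P) (adm_rect_open _ _ _).measurableSet _).2,
    ← adm_strip P ht, ← setIntegral_indicator (adm_strip_meas t)]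
  refine setIntegral_congr_fun (adm_rect_open _ _ _).measurableSet fun u hu => ?_
  have hu' := adm_sub P hu
  have hV := (G.Vpos u hu').1
  have hr := (G.rpos u hu').1
  have hp := hpos u hu
  simp only
  rw [adm_rho_Y G ε t hu', adm_vel_Y G ε t hu']
  by_cases hs : lm + t < u 0 ∧ u 0 < lp + t
  · rw [if_pos hs, indicator_of_mem (by exact hs)]
    have hYd : DifferentiableAt ℝ Y u :=
      (G.hY.contDiffAt ((adm_rect_open _ _ _).mem_nhds hu')).differentiableAt (by simp)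
    have hF : fderiv ℝ (fun u => ψ (Y u)) u e0 = fderiv ℝ ψ (Y u) (fderiv ℝ Y u e0) := by
      have h1 : HasFDerivAt (fun u => ψ (Y u)) ((fderiv ℝ ψ (Y u)).comp (fderiv ℝ Y u)) u :=
        (hψ (Y u) ⟨u, hu, rfl⟩).hasFDerivAt.comp u hYd.hasFDerivAt
      rw [h1.fderiv]
      rfl
    rw [hF, inner_smul_right, inner_smul_right]
    have hg : inner ℝ (gradient ψ (Y u)) (fderiv ℝ Y u e0) = fderiv ℝ ψ (Y u) (fderiv ℝ Y u e0) := by
      unfold gradient
      rw [InnerProductSpace.toDual_symm_apply]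
    rw [hg]
    field_simp
  · rw [if_neg hs, indicator_of_notMem (by exact hs)]
    simp

end H870N
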