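import Pool.Agent.H775R3.Noz.A3

set_option autoImplicit false

open MeasureTheory Set
open scoped ContDiff

namespace H870N

variable {Y Xi : E2 → E2} {V r : E2 → ℝ} {L R h0 L1 R1 h cL cR a b c d lm lp T ϑ : ℝ}

theorem adm_et_bound {M t x : ℝ} (hM : |gp a b c d x| ≤ M) (ht : t ∈ Icc 0 T) :
    |et a b c d T t x| ≤ T ^ 2 * M := by
  obtain ⟨h1, h2⟩ := ht
  unfold et
  rw [abs_mul, abs_neg]
  have h3 : |t * (T - t)| ≤ T ^ 2 := by
    rw [abs_of_nonneg (mul_nonneg h1 (by linarith))]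
    nlinarith
  exact mul_le_mul h3 hM (abs_nonneg _) (sq_nonneg T)

theorem adm_eps (G : Geo Y Xi V r L R h0) (P : Par V r L R h0 L1 R1 h cL cR a b c d lm lp T ϑ)
    (hz : ∀ x, (x ≤ a ∨ d ≤ x ∨ (b ≤ x ∧ x ≤ c)) → gp a b c d x = 0)
    (hp : ∀ x, a < x → x < b → 0 ≤ gp a b c d x)

    (hC : ∃ C, ∀ x, |gp a b c d x| ≤ C) :
    ∃ ε₀ > 0, ∀ ε, 0 ≤ ε → ε ≤ ε₀ → ∀ t ∈ Icc 0 T, ∀ u ∈ rect L1 R1 h,
      1 / 2 ≤ 1 + ε * et a b c d T t (u 0) * V u ^ 2 ∧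
      r u * (1 + ε * et a b c d T t (u 0) * V u ^ 2) ≤ 1 := by
  obtain ⟨C, hC⟩ := hC
  have hC0 : 0 ≤ C := (abs_nonneg _).trans (hC 0)
  -- the collar
  have hKs : {u : E2 | c ≤ u 0 ∧ u 0 ≤ d ∧ |u 1| ≤ h} ⊆ rect L R h0 := by
    rintro u ⟨e1, e2, e3⟩
    have := P.o1; have := P.o2; have := P.o3; have := P.o4; have := P.o5; have := P.o6
    have := P.o7; have := P.o8; have := P.o9; have := P.o10; have := P.o11; have := P.hT
    exact ⟨by linarith, by linarith, lt_of_le_of_lt e3 P.hh0⟩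
  have hne : {u : E2 | c ≤ u 0 ∧ u 0 ≤ d ∧ |u 1| ≤ h}.Nonempty := by
    refine ⟨c • e0, ?_⟩
    have h1 : (c • e0 : E2) 0 = c := by simp [e0]
    have h2 : (c • e0 : E2) 1 = 0 := by simp [e0]
    refine ⟨h1.ge, by rw [h1]; exact P.o8.le, by rw [h2, abs_zero]; exact P.hh.le⟩
  obtain ⟨u0, hu0, hmax⟩ := (adm_box_compact c d h).exists_isMaxOn hne (G.hr.mono hKs)
  have hru0 : r u0 < 1 := (P.Vr u0 (hKs hu0) (lt_of_lt_of_le P.o7 hu0.1)).2
  set κ := 1 - r u0 with hκ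
  have hκ0 : 0 < κ := by rw [hκ]; linarith
  have hκ1 : ∀ u ∈ {u : E2 | c ≤ u 0 ∧ u 0 ≤ d ∧ |u 1| ≤ h}, r u ≤ 1 - κ := by
    intro u hu
    have h1 : r u ≤ r u0 := hmax hu
    rw [hκ]; linarith
  set M := T ^ 2 * C with hM
  have hM0 : 0 ≤ M := by positivity
  refine ⟨min (1 / (8 * (M + 1))) (κ / (M + 1)), by positivity, fun ε hε0 hε t ht u hu => ?_⟩
  have hε1 : ε * (8 * (M + 1)) ≤ 1 := by
    have := hε.trans (min_le_left _ _)
    rwa [le_div_iff₀ (by positivity)] at this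
  have hε2 : ε * (M + 1) ≤ κ := by
    have := hε.trans (min_le_right _ _)
    rwa [le_div_iff₀ (by positivity)] at this
  have hu' := adm_sub P hu
  obtain ⟨hV0, hV2⟩ := G.Vpos u hu'
  obtain ⟨hr0, hr1⟩ := G.rpos u hu'
  have het := adm_et_bound (T := T) (hC (u 0)) ht
  rw [← hM] at het
  have het' := abs_le.mp het
  have hVV : V u ^ 2 ≤ 4 := by nlinarith
  have hVV0 : 0 ≤ V u ^ 2 := by positivity
  have h1 : |ε * et a b c d T t (u 0) * V u ^ 2| ≤ 1 / 2 := by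
    rw [abs_mul, abs_mul, abs_of_nonneg hε0, abs_of_nonneg hVV0]
    have h2 : ε * |et a b c d T t (u 0)| * V u ^ 2 ≤ ε * M * 4 := by
      have h3 : ε * |et a b c d T t (u 0)| ≤ ε * M := mul_le_mul_of_nonneg_left het hε0
      exact mul_le_mul h3 hVV hVV0 (by positivity)
    nlinarith
  have h1' := abs_le.mp h1
  refine ⟨by linarith [h1'.1], ?_⟩
  have htt : 0 ≤ t * (T - t) := mul_nonneg ht.1 (by linarith [ht.2])
  by_cases hA : u 0 ≤ a ∨ d ≤ u 0 ∨ (b ≤ u 0 ∧ u 0 ≤ c)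
  · have : et a b c d T t (u 0) = 0 := by unfold et; rw [hz _ hA, mul_zero]
    rw [this]
    simpa using hr1
  · push Not at hA
    obtain ⟨hA1, hA2, hA3⟩ := hA
    by_cases hB : u 0 < b
    · have h2 : et a b c d T t (u 0) ≤ 0 := by
        unfold et
        have := mul_nonneg htt (hp (u 0) hA1 hB)
        linarith
      have h3 : ε * et a b c d T t (u 0) * V u ^ 2 ≤ 0 :=
        mul_nonpos_of_nonpos_of_nonneg (mul_nonpos_of_nonneg_of_nonpos hε0 h2) hVV0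
      nlinarith
    · have hB' : c < u 0 := hA3 (not_lt.mp hB)
      have hV1 : V u = 1 := (P.Vr u hu' (P.o7.trans hB')).1
      have hrk := hκ1 u ⟨hB'.le, hA2.le, hu.2.2.le⟩
      rw [hV1, one_pow, mul_one]
      have h4 : ε * et a b c d T t (u 0) ≤ κ := by
        have h5 : ε * et a b c d T t (u 0) ≤ ε * M := mul_le_mul_of_nonneg_left het'.2 hε0
        nlinarith
      have h5 : 0 ≤ 1 + ε * et a b c d T t (u 0) := by
        have := h1'.1
        rw [hV1, one_pow, mul_one] at this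
        linarith
      have h6 : r u * (1 + ε * et a b c d T t (u 0)) ≤ (1 - κ) * (1 + κ) := by
        have h7 : 0 ≤ 1 - κ := hr0.le.trans hrk
        exact mul_le_mul hrk (by linarith) h5 h7
      nlinarith

theorem adm_m (G : Geo Y Xi V r L R h0) (P : Par V r L R h0 L1 R1 h cL cR a b c d lm lp T ϑ) :
    ContinuousOn (fun u => 1 / V u ^ 2) (rect L1 R1 h) ∧
      ∃ C, ∀ u ∈ rect L1 R1 h, |1 / V u ^ 2| ≤ C := by
  have h1 : ContinuousOn (fun u => 1 / V u ^ 2) (rect L R h0) := by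
    refine continuousOn_const.div (G.hV.pow 2) fun u hu => ?_
    have := (G.Vpos u hu).1
    positivity
  refine ⟨h1.mono (adm_sub P), ?_⟩
  obtain ⟨C, hC⟩ := (adm_box_compact L1 R1 h).exists_bound_of_continuousOn (h1.mono (adm_box_sub P))
  exact ⟨C, fun u hu => hC u (adm_rect_box hu)⟩

theorem adm_F (G : Geo Y Xi V r L R h0) (P : Par V r L R h0 L1 R1 h cL cR a b c d lm lp T ϑ)
    (ψ : E2 → ℝ) (hψ : ContDiffOn ℝ 1 ψ (closure (Y '' rect L1 R1 h))) :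
    (∀ x ∈ Y '' rect L1 R1 h, DifferentiableAt ℝ ψ x) ∧
    ContDiffOn ℝ 1 (fun u => ψ (Y u)) (rect L1 R1 h) ∧
      ∃ C, ∀ u ∈ rect L1 R1 h, |ψ (Y u)| ≤ C ∧ ‖fderiv ℝ (fun u => ψ (Y u)) u‖ ≤ C := by
  have hΩ := adm_open G P
  obtain ⟨hK, hcl⟩ := adm_closure G P
  have hc : IsCompact (closure (Y '' rect L1 R1 h)) := hK.of_isClosed_subset isClosed_closure hcl
  obtain ⟨C1, hC10, hC1⟩ := adm_fderiv_bdd hΩ hc hψ
  have hd : ∀ x ∈ Y '' rect L1 R1 h, DifferentiableAt ℝ ψ x := fun x hx =>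
    ((hψ.mono subset_closure).contDiffAt (hΩ.mem_nhds hx)).differentiableAt (by simp)
  have hDY : ContinuousOn (fderiv ℝ Y) (rect L R h0) :=
    G.hY.continuousOn_fderiv_of_isOpen (adm_rect_open _ _ _) le_rfl
  obtain ⟨C2, hC2⟩ := (adm_box_compact L1 R1 h).exists_bound_of_continuousOn
    (hDY.mono (adm_box_sub P))
  refine ⟨hd, ?_, C1 + C1 * |C2|, ?_⟩
  · exact (hψ.mono subset_closure).comp (G.hY.mono (adm_sub P)) fun u hu => ⟨u, hu, rfl⟩
  · intro u hu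
    have h1 := hC1 (Y u) ⟨u, hu, rfl⟩
    have h2 : 0 ≤ C1 * |C2| := by positivity
    refine ⟨by linarith [h1.1], ?_⟩
    have hYd : DifferentiableAt ℝ Y u :=
      (G.hY.contDiffAt ((adm_rect_open _ _ _).mem_nhds (adm_sub P hu))).differentiableAt (by simp)
    have h3 : HasFDerivAt (fun u => ψ (Y u)) ((fderiv ℝ ψ (Y u)).comp (fderiv ℝ Y u)) u :=
      (hd (Y u) ⟨u, hu, rfl⟩).hasFDerivAt.comp u hYd.hasFDerivAt
    rw [h3.fderiv]
    have h4 := ContinuousLinearMap.opNorm_comp_le (fderiv ℝ ψ (Y u)) (fderiv ℝ Y u)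
    have h5 : ‖fderiv ℝ Y u‖ ≤ |C2| := (hC2 u (adm_rect_box hu)).trans (le_abs_self _)
    have h6 : ‖fderiv ℝ ψ (Y u)‖ * ‖fderiv ℝ Y u‖ ≤ C1 * |C2| :=
      mul_le_mul h1.2 h5 (norm_nonneg _) hC10
    linarith

end H870N
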