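import Pool.Agent.H775R3.Noz.A4

set_option autoImplicit false

open MeasureTheory Set
open scoped ContDiff

namespace H870N

variable {Y Xi : E2 → E2} {V r : E2 → ℝ} {L R h0 L1 R1 h cL cR a b c d lm lp T ϑ : ℝ}

/-- the integral of a function against the density, as a function of time -/
theorem adm_time (CV : TaskCV) (PF : TaskProf) (CE : TaskCE) (G : Geo Y Xi V r L R h0)
    (P : Par V r L R h0 L1 R1 h cL cR a b c d lm lp T ϑ) (ε : ℝ)
    (ψ : E2 → ℝ) (hψ : ContDiffOn ℝ 1 ψ (closure (Y '' rect L1 R1 h))) :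
    (∃ K : NNReal, LipschitzOnWith K
      (fun t => ∫ x in Y '' rect L1 R1 h, ψ x * rho Xi V r a b c d T lm lp ε t x) (Icc 0 T)) ∧
    ∀ t ∈ Ioo 0 T, HasDerivAt
      (fun t => ∫ x in Y '' rect L1 R1 h, ψ x * rho Xi V r a b c d T lm lp ε t x)
      (∫ u in rect (lm + t) (lp + t) h,
        fderiv ℝ (fun u => ψ (Y u)) u e0 * (1 + ε * Th a b c d T t (u 0))) t := by
  obtain ⟨-, hF, C1, hC1⟩ := adm_F G P ψ hψ
  obtain ⟨hm, C2, hC2⟩ := adm_m G P
  have hml : ∀ u ∈ rect L1 R1 h, u 0 < cL → 1 / V u ^ 2 = 1 := fun u hu hc => by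
    rw [P.Vl u (adm_sub P hu) hc]; norm_num
  have hmr : ∀ u ∈ rect L1 R1 h, cR < u 0 → 1 / V u ^ 2 = 1 := fun u hu hc => by
    rw [(P.Vr u (adm_sub P hu) hc).1]; norm_num
  obtain ⟨⟨K, hK⟩, hD⟩ := CE PF (fun u => 1 / V u ^ 2) (fun u => ψ (Y u)) L1 R1 h cL cR a b c d
    lm lp T ε (max C1 C2) P.o2 P.o3 P.o4 P.o5 P.o6 P.o7 P.o8 P.o9 P.o10 P.hT P.hh hm
    (fun u hu => (hC2 u hu).trans (le_max_right _ _)) hml hmr hF
    (fun u hu => ⟨(hC1 u hu).1.trans (le_max_left _ _), (hC1 u hu).2.trans (le_max_left _ _)⟩)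
  have heq : ∀ t ∈ Icc 0 T,
      (∫ x in Y '' rect L1 R1 h, ψ x * rho Xi V r a b c d T lm lp ε t x) =
      ∫ u in rect (lm + t) (lp + t) h, ψ (Y u) * (1 / V u ^ 2 + ε * et a b c d T t (u 0)) :=
    fun t ht => adm_int CV G P ε t ht ψ
  refine ⟨⟨K, fun s hs t ht => ?_⟩, fun t ht => ?_⟩
  · simp only
    rw [heq s hs, heq t ht]
    exact hK hs ht
  · refine (hD t ht).congr_of_eventuallyEq ?_
    filter_upwards [Ioo_mem_nhds ht.1 ht.2] with s hs
    exact heq s ⟨hs.1.le, hs.2.le⟩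

theorem taskAdm : TaskAdm := by
  intro CV PF CE Y Xi V r L R h0 L1 R1 h cL cR a b c d lm lp T ϑ G P hmass
  obtain ⟨hgp, hgg, -, -, hgb, hz, hp, hn, hC, -, -⟩ :=
    PF a b c d T P.o5 (P.o6.trans P.o7) P.o8 P.hT
  have hggc : Continuous (gg a b c d) := continuous_iff_continuousAt.mpr fun x => (hgg x).continuousAt
  obtain ⟨ε₀, hε₀, hb⟩ := adm_eps G P hz hp hC
  refine ⟨ε₀, hε₀, fun ε hε0 hε => ?_⟩
  have hb' := hb ε hε0 hε
  have hΩ := adm_open G P
  have hΩs : Y '' rect L1 R1 h ⊆ Y '' rect L R h0 := image_mono (adm_sub P)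
  obtain ⟨hK, hcl⟩ := adm_closure G P
  have hbdd : Bornology.IsBounded (Y '' rect L1 R1 h) :=
    hK.isBounded.subset (subset_closure.trans hcl)
  obtain ⟨fρ, hfρ, hfρ'⟩ := adm_meas_rho (T := T) (lm := lm) (lp := lp) G hgp ε
  obtain ⟨fv, hfv, hfv'⟩ := adm_meas_vel (T := T) G hgp hggc ε
  have hSm : MeasurableSet (Ioo 0 T ×ˢ (Y '' rect L1 R1 h)) :=
    measurableSet_Ioo.prod hΩ.measurableSet
  -- pointwise bounds of the density
  have hrho : ∀ t ∈ Icc 0 T, ∀ x ∈ Y '' rect L1 R1 h,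
      0 ≤ rho Xi V r a b c d T lm lp ε t x ∧ rho Xi V r a b c d T lm lp ε t x ≤ 1 := by
    rintro t ht _ ⟨u, hu, rfl⟩
    classical
    rw [adm_rho_Y G ε t (adm_sub P hu)]
    obtain ⟨h1, h2⟩ := hb' t ht u hu
    have hr := (G.rpos u (adm_sub P hu)).1
    split_ifs
    · exact ⟨mul_nonneg hr.le (by linarith), h2⟩
    · exact ⟨le_rfl, zero_le_one⟩
  have hvol : volume (Y '' rect L1 R1 h) < ⊤ := hbdd.measure_lt_top
  -- integrability
  have hint : ∀ t ∈ Icc 0 T, IntegrableOn (rho Xi V r a b c d T lm lp ε t) (Y '' rect L1 R1 h) := by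
    intro t ht
    have hm1 : Measurable (fun x => fρ (t, x)) := hfρ.comp measurable_prodMk_left
    have h1 : IntegrableOn (fun x => fρ (t, x)) (Y '' rect L1 R1 h) := by
      refine Measure.integrableOn_of_bounded hvol.ne hm1.aestronglyMeasurable (M := 1) ?_
      refine ae_restrict_of_forall_mem hΩ.measurableSet fun x hx => ?_
      rw [hfρ' t x (hΩs hx), Real.norm_eq_abs, abs_le]
      have := hrho t ht x hx
      constructor <;> linarith [this.1, this.2]
    refine h1.congr_fun (fun x hx => hfρ' t x (hΩs hx)) hΩ.measurableSet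
  -- total mass
  have hone : ContDiffOn ℝ 1 (fun _ : E2 => (1 : ℝ)) (closure (Y '' rect L1 R1 h)) :=
    contDiffOn_const
  obtain ⟨⟨K1, hK1⟩, hD1⟩ := adm_time CV PF CE G P ε (fun _ => 1) hone
  have hM0 : (∫ x in Y '' rect L1 R1 h, (1 : ℝ) * rho Xi V r a b c d T lm lp ε 0 x) = 1 := by
    rw [adm_int CV G P ε 0 ⟨le_rfl, P.hT.le⟩ (fun _ => 1), add_zero, add_zero]
    refine Eq.trans ?_ hmass
    refine setIntegral_congr_fun (adm_rect_open _ _ _).measurableSet fun u _ => ?_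
    simp only
    unfold et
    ring
  have hMt : ∀ t ∈ Icc 0 T, (∫ x in Y '' rect L1 R1 h, rho Xi V r a b c d T lm lp ε t x) = 1 := by
    intro t ht
    have h1 : (∫ x in Y '' rect L1 R1 h, (1 : ℝ) * rho Xi V r a b c d T lm lp ε t x) = 1 := by
      rcases eq_or_lt_of_le ht.1 with h00 | h00
      · rw [← h00]; exact hM0
      · have hcont : ContinuousOn
            (fun t => ∫ x in Y '' rect L1 R1 h, (1 : ℝ) * rho Xi V r a b c d T lm lp ε t x)
            (Icc 0 t) := hK1.continuousOn.mono (Icc_subset_Icc_right ht.2)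
        obtain ⟨s, hs, hs'⟩ := exists_hasDerivAt_eq_slope _ _ h00 hcont
          (fun s hs => hD1 s ⟨hs.1, hs.2.trans_le ht.2⟩)
        have h0 : (∫ u in rect (lm + s) (lp + s) h,
            fderiv ℝ (fun _ : E2 => (1 : ℝ)) u e0 * (1 + ε * Th a b c d T s (u 0))) = 0 := by
          simp
        rw [h0] at hs'
        have ht0 : t - 0 ≠ 0 := by linarith
        rw [eq_comm, div_eq_zero_iff] at hs'
        rcases hs' with hs' | hs'
        · linarith
        · exact absurd hs' ht0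
    simpa using h1
  refine ⟨?_, ?_, ?_, ?_, ?_, ?_⟩
  · refine hfρ.aemeasurable.congr ?_
    refine ae_restrict_of_forall_mem hSm fun z hz => ?_
    exact hfρ' z.1 z.2 (hΩs hz.2)
  · refine hfv.aemeasurable.congr ?_
    refine ae_restrict_of_forall_mem hSm fun z hz => ?_
    exact hfv' z.1 z.2 (hΩs hz.2)
  · intro t ht
    exact ⟨hint t ht, hMt t ht, ae_restrict_of_forall_mem hΩ.measurableSet fun x hx => hrho t ht x hx⟩
  · -- finite energy
    have hbound : ∀ z ∈ Ioo 0 T ×ˢ (Y '' rect L1 R1 h),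
        ENNReal.ofReal (‖vel Y Xi V a b c d T ε z.1 z.2‖ ^ 2 *
          rho Xi V r a b c d T lm lp ε z.1 z.2) ≤ ENNReal.ofReal ((4 * (1 + ε * T)) ^ 2) := by
      rintro ⟨t, x⟩ ⟨ht, hx⟩
      simp only at ht hx ⊢
      have ht' : t ∈ Icc 0 T := ⟨ht.1.le, ht.2.le⟩
      obtain ⟨u, hu, rfl⟩ := hx
      have hr := hrho t ht' (Y u) ⟨u, hu, rfl⟩
      refine ENNReal.ofReal_le_ofReal ?_
      have hu' := adm_sub P hu
      have hv : ‖vel Y Xi V a b c d T ε t (Y u)‖ ≤ 4 * (1 + ε * T) := by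
        rw [adm_vel_Y G ε t hu', norm_smul, norm_smul, G.n0 u hu']
        obtain ⟨hV0, hV2⟩ := G.Vpos u hu'
        have e1 : ‖V u ^ 2‖ * (1 / V u) = V u := by
          rw [Real.norm_eq_abs, abs_of_pos (by positivity)]
          field_simp
        rw [e1, Real.norm_eq_abs, abs_div]
        obtain ⟨h1, -⟩ := hb' t ht' u hu
        have h2 : |Th a b c d T t (u 0)| ≤ T := by
          unfold Th
          rw [abs_mul]
          have h3 : |T - 2 * t| ≤ T := by
            rw [abs_le]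
            constructor <;> linarith [ht.1, ht.2]
          have h4 : |gg a b c d (u 0)| ≤ 1 := by
            rw [abs_of_nonneg (hgb _).1]; exact (hgb _).2
          calc |T - 2 * t| * |gg a b c d (u 0)| ≤ T * 1 :=
                mul_le_mul h3 h4 (abs_nonneg _) P.hT.le
            _ = T := mul_one T
        have h5 : |1 + ε * Th a b c d T t (u 0)| ≤ 1 + ε * T := by
          calc |1 + ε * Th a b c d T t (u 0)| ≤ |(1 : ℝ)| + |ε * Th a b c d T t (u 0)| :=
                abs_add_le _ _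
            _ = 1 + ε * |Th a b c d T t (u 0)| := by
                rw [abs_one, abs_mul, abs_of_nonneg hε0]
            _ ≤ 1 + ε * T := by
                have := mul_le_mul_of_nonneg_left h2 hε0
                linarith
        have h6 : 0 < |1 + ε * et a b c d T t (u 0) * V u ^ 2| := by
          rw [abs_pos]
          linarith
        have h7 : |1 + ε * Th a b c d T t (u 0)| / |1 + ε * et a b c d T t (u 0) * V u ^ 2| ≤
            2 * (1 + ε * T) := by
          rw [div_le_iff₀ h6]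
          have h8 : 1 / 2 ≤ |1 + ε * et a b c d T t (u 0) * V u ^ 2| := h1.trans (le_abs_self _)
          have h9 : 0 ≤ 1 + ε * T := by have := mul_nonneg hε0 P.hT.le; linarith
          nlinarith
        have h9 : 0 ≤ 1 + ε * T := by have := mul_nonneg hε0 P.hT.le; linarith
        calc _ ≤ (2 * (1 + ε * T)) * 2 := mul_le_mul h7 hV2 hV0.le (by positivity)
          _ = 4 * (1 + ε * T) := by ring
      have hv2 : ‖vel Y Xi V a b c d T ε t (Y u)‖ ^ 2 ≤ (4 * (1 + ε * T)) ^ 2 :=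
        pow_le_pow_left₀ (norm_nonneg _) hv 2
      calc _ ≤ (4 * (1 + ε * T)) ^ 2 * 1 := mul_le_mul hv2 hr.2 hr.1 (by positivity)
        _ = _ := mul_one _
    have hvS : volume (Ioo 0 T ×ˢ (Y '' rect L1 R1 h)) < ⊤ :=
      ((Metric.isBounded_Ioo 0 T).prod hbdd).measure_lt_top
    calc _ ≤ ∫⁻ _ in Ioo 0 T ×ˢ (Y '' rect L1 R1 h), ENNReal.ofReal ((4 * (1 + ε * T)) ^ 2) :=
          setLIntegral_mono' hSm hbound
      _ = ENNReal.ofReal ((4 * (1 + ε * T)) ^ 2) * volume (Ioo 0 T ×ˢ (Y '' rect L1 R1 h)) := by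
          rw [setLIntegral_const]
      _ < ⊤ := ENNReal.mul_lt_top ENNReal.ofReal_lt_top hvS
  · refine Filter.Eventually.of_forall fun x => ?_
    unfold rho et
    simp
  · intro ψ hψ
    obtain ⟨hLip, hDer⟩ := adm_time CV PF CE G P ε ψ hψ
    refine ⟨hLip, ae_restrict_of_forall_mem measurableSet_Ioo fun t ht => ?_⟩
    have h1 := hDer t ht
    rw [← adm_flux CV G P ε t ⟨ht.1.le, ht.2.le⟩
      (fun u hu => by linarith [(hb' t ⟨ht.1.le, ht.2.le⟩ u hu).1]) ψ (adm_F G P ψ hψ).1] at h1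
    exact h1

end H870N
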